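import Pool.Agent.K3h94.AT.Stm

set_option autoImplicit false

/-! # Brick VAL of project AT of helper94 -/

namespace Pool.Agent.K3h69.AT

open Finset Pool.Agent.K3h94.AT

lemma vprod {p : ℕ} (hp : p.Prime) (s : Finset ℕ) (f : ℕ → ℕ) (h : ∀ k ∈ s, f k ≠ 0) :
    padicValNat p (∏ k ∈ s, f k) = ∑ k ∈ s, padicValNat p (f k) := by
  classical
  have : Fact p.Prime := ⟨hp⟩
  induction s using Finset.induction_on with
  | empty => simp
  | insert a s ha ih =>
    rw [prod_insert ha, sum_insert ha, padicValNat.mul (h a (mem_insert_self _ _))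
      (prod_ne_zero_iff.2 fun k hk => h k (mem_insert_of_mem hk)),
      ih fun k hk => h k (mem_insert_of_mem hk)]

lemma val_le {p : ℕ} (hp : p.Prime) {m J : ℕ} (hm : m ≠ 0) (hJ : Nat.log p m ≤ J) :
    padicValNat p m ≤ ∑ j ∈ Icc 1 J, if p ^ j ∣ m then 1 else 0 := by
  have : Fact p.Prime := ⟨hp⟩
  rw [← card_filter]
  have h1 : Icc 1 (padicValNat p m) ⊆ (Icc 1 J).filter fun j => p ^ j ∣ m := by
    intro j hj
    rw [mem_Icc] at hj
    have h2 : p ^ j ∣ m := (pow_dvd_pow p hj.2).trans pow_padicValNat_dvd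
    rw [mem_filter, mem_Icc]
    refine ⟨⟨hj.1, ?_⟩, h2⟩
    exact (Nat.le_log_of_pow_le hp.one_lt (Nat.le_of_dvd (Nat.pos_of_ne_zero hm) h2)).trans hJ
  have h2 := card_le_card h1
  rwa [Nat.card_Icc, Nat.add_sub_cancel] at h2

/-- a set of pairwise congruent numbers -/
lemma card_class (n q : ℕ) (A : Finset ℕ) (hA : A ⊆ range (n + 1))
    (h : ∀ k ∈ A, ∀ l ∈ A, (q : ℤ) ∣ k - l) : A.card ≤ n / q + 1 := by
  have h1 : A.card ≤ (range (n / q + 1)).card := by
    apply card_le_card_of_injOn (fun k => k / q)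
    · intro k hk
      have h2 := mem_range.1 (hA hk)
      exact mem_coe.2 (mem_range.2 (Nat.lt_succ_of_le (Nat.div_le_div_right (Nat.lt_succ_iff.1 h2))))
    · intro k hk l hl hkl
      have h2 : k / q = l / q := hkl
      have h3 : l ≡ k [MOD q] := (Nat.modEq_iff_dvd).2 (h k hk l hl)
      have h4 : l % q = k % q := h3
      rw [← Nat.div_add_mod k q, ← Nat.div_add_mod l q, h2, h4]
  rwa [card_range] at h1

lemma split {p : ℕ} (hp : p.Prime) (hp2 : p ≠ 2) {j : ℕ} (hj : 1 ≤ j) {k l : ℕ}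
    (hk : p ^ j ∣ 1 + k ^ 2) (hl : p ^ j ∣ 1 + l ^ 2) :
    ((p ^ j : ℕ) : ℤ) ∣ (k : ℤ) - l ∨ ((p ^ j : ℕ) : ℤ) ∣ (k : ℤ) + l := by
  have hP : Prime (p : ℤ) := Nat.prime_iff_prime_int.1 hp
  have h1 : ((p ^ j : ℕ) : ℤ) ∣ 1 + (k : ℤ) ^ 2 := by exact_mod_cast Int.natCast_dvd_natCast.2 hk
  have h2 : ((p ^ j : ℕ) : ℤ) ∣ 1 + (l : ℤ) ^ 2 := by exact_mod_cast Int.natCast_dvd_natCast.2 hl
  have h3 : ((p ^ j : ℕ) : ℤ) ∣ ((k : ℤ) - l) * ((k : ℤ) + l) := by
    have h4 := dvd_sub h1 h2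
    have e : (1 + (k : ℤ) ^ 2) - (1 + (l : ℤ) ^ 2) = ((k : ℤ) - l) * ((k : ℤ) + l) := by ring
    rwa [e] at h4
  have hcast : ((p ^ j : ℕ) : ℤ) = (p : ℤ) ^ j := by push_cast; ring
  rw [hcast] at h1 h2 h3 ⊢
  have hpd : (p : ℤ) ∣ (p : ℤ) ^ j := dvd_pow_self _ (by omega)
  by_cases h4 : (p : ℤ) ∣ (k : ℤ) + l
  · right
    have h5 : ¬ (p : ℤ) ∣ (k : ℤ) - l := by
      intro h5
      have h6 : (p : ℤ) ∣ 2 * k := by
        have := dvd_add h4 h5
        have e : ((k : ℤ) + l) + ((k : ℤ) - l) = 2 * k := by ring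
        rwa [e] at this
      rcases hP.dvd_or_dvd h6 with h7 | h7
      · have h8 : p ∣ 2 := by exact_mod_cast h7
        have h9 := (Nat.prime_dvd_prime_iff_eq hp Nat.prime_two).1 h8
        exact hp2 h9
      · have h8 : (p : ℤ) ∣ 1 := by
          have h9 : (p : ℤ) ∣ (k : ℤ) ^ 2 := dvd_pow h7 (by norm_num)
          exact (dvd_add_left h9).1 (hpd.trans h1)
        exact hP.not_isUnit (isUnit_of_dvd_one h8)
    have h6 : IsCoprime ((p : ℤ) ^ j) ((k : ℤ) - l) :=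
      IsCoprime.pow_left ((Prime.coprime_iff_not_dvd hP).2 h5)
    exact h6.dvd_of_dvd_mul_left h3
  · left
    have h6 : IsCoprime ((p : ℤ) ^ j) ((k : ℤ) + l) :=
      IsCoprime.pow_left ((Prime.coprime_iff_not_dvd hP).2 h4)
    exact h6.dvd_of_dvd_mul_right h3

lemma count {p : ℕ} (hp : p.Prime) (hp2 : p ≠ 2) {j : ℕ} (hj : 1 ≤ j) (n : ℕ) :
    ((range (n + 1)).filter fun k => p ^ j ∣ 1 + k ^ 2).card ≤ 2 * (n / p ^ j + 1) := by
  classical
  obtain ⟨A, hA⟩ : ∃ A, A = (range (n + 1)).filter fun k => p ^ j ∣ 1 + k ^ 2 := ⟨_, rfl⟩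
  rw [← hA]
  rcases A.eq_empty_or_nonempty with h | ⟨l, hl⟩
  · rw [h]
    simp
  · have hl' : p ^ j ∣ 1 + l ^ 2 := by
      rw [hA, mem_filter] at hl
      exact hl.2
    have hAs : A ⊆ range (n + 1) := by rw [hA]; exact filter_subset _ _
    have h1 : A ⊆ (A.filter fun k => ((p ^ j : ℕ) : ℤ) ∣ (k : ℤ) - l) ∪
        A.filter fun k => ((p ^ j : ℕ) : ℤ) ∣ (k : ℤ) + l := by
      intro k hk
      rw [mem_union, mem_filter, mem_filter]
      have hk' : p ^ j ∣ 1 + k ^ 2 := by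
        rw [hA, mem_filter] at hk
        exact hk.2
      rcases split hp hp2 hj hk' hl' with h | h
      · exact Or.inl ⟨hk, h⟩
      · exact Or.inr ⟨hk, h⟩
    have h2 := card_class n (p ^ j) (A.filter fun k => ((p ^ j : ℕ) : ℤ) ∣ (k : ℤ) - l)
      ((filter_subset _ _).trans hAs) (by
        intro k hk m hm
        rw [mem_filter] at hk hm
        have := dvd_sub hk.2 hm.2
        have e : ((k : ℤ) - l) - ((m : ℤ) - l) = k - m := by ring
        rwa [e] at this)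
    have h3 := card_class n (p ^ j) (A.filter fun k => ((p ^ j : ℕ) : ℤ) ∣ (k : ℤ) + l)
      ((filter_subset _ _).trans hAs) (by
        intro k hk m hm
        rw [mem_filter] at hk hm
        have := dvd_sub hk.2 hm.2
        have e : ((k : ℤ) + l) - ((m : ℤ) + l) = k - m := by ring
        rwa [e] at this)
    have h4 := (card_le_card h1).trans (card_union_le _ _)
    omega

lemma geo {p : ℝ} (hp : 1 < p) (J : ℕ) :
    ∑ j ∈ Icc 1 J, 1 / p ^ j = (1 - 1 / p ^ J) / (p - 1) := by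
  have h1 : p - 1 ≠ 0 := by linarith
  have h0 : p ≠ 0 := by linarith
  induction J with
  | zero => simp
  | succ J ih =>
    rw [sum_Icc_succ_top (by omega), ih]
    field_simp
    ring

theorem t_VAL : S_VAL := by
  intro p n hp hp2
  obtain ⟨J, hJ⟩ : ∃ J, J = Nat.log p (n ^ 2 + 1) := ⟨_, rfl⟩
  rw [← hJ]
  have h1 : padicValNat p (∏ k ∈ range (n + 1), (1 + k ^ 2)) ≤
      ∑ j ∈ Icc 1 J, 2 * (n / p ^ j + 1) := by
    rw [vprod hp _ _ (fun k _ => by positivity)]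
    calc ∑ k ∈ range (n + 1), padicValNat p (1 + k ^ 2)
        ≤ ∑ k ∈ range (n + 1), ∑ j ∈ Icc 1 J, if p ^ j ∣ 1 + k ^ 2 then 1 else 0 := by
          apply sum_le_sum
          intro k hk
          apply val_le hp (by positivity)
          rw [hJ]
          apply Nat.log_mono_right
          have h2 : k ≤ n := Nat.lt_succ_iff.1 (mem_range.1 hk)
          nlinarith
      _ = ∑ j ∈ Icc 1 J, ∑ k ∈ range (n + 1), if p ^ j ∣ 1 + k ^ 2 then 1 else 0 := sum_comm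
      _ ≤ ∑ j ∈ Icc 1 J, 2 * (n / p ^ j + 1) := by
          apply sum_le_sum
          intro j hj
          rw [← card_filter]
          exact count hp hp2 (mem_Icc.1 hj).1 n
  have hp1 : (1 : ℝ) < p := by exact_mod_cast hp.one_lt
  have hp0 : (0 : ℝ) < p := by linarith
  have h2 : (padicValNat p (∏ k ∈ range (n + 1), (1 + k ^ 2)) : ℝ) ≤
      ∑ j ∈ Icc 1 J, 2 * ((n : ℝ) * (1 / (p : ℝ) ^ j) + 1) := by
    calc (padicValNat p (∏ k ∈ range (n + 1), (1 + k ^ 2)) : ℝ)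
        ≤ ((∑ j ∈ Icc 1 J, 2 * (n / p ^ j + 1) : ℕ) : ℝ) := by exact_mod_cast h1
      _ ≤ _ := by
          push_cast
          apply sum_le_sum
          intro j _
          have h3 : ((n / p ^ j : ℕ) : ℝ) ≤ (n : ℝ) / ((p ^ j : ℕ) : ℝ) := Nat.cast_div_le
          push_cast at h3
          have e : (n : ℝ) / (p : ℝ) ^ j = n * (1 / (p : ℝ) ^ j) := by ring
          rw [e] at h3
          linarith
  refine h2.trans ?_
  rw [← mul_sum, sum_add_distrib, ← mul_sum, geo hp1, sum_const, Nat.card_Icc,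
    Nat.add_sub_cancel, nsmul_eq_mul, mul_one]
  have h3 : (1 - 1 / (p : ℝ) ^ J) / (p - 1) ≤ 1 / (p - 1) := by
    apply div_le_div_of_nonneg_right _ (by linarith)
    have : 0 < 1 / (p : ℝ) ^ J := by positivity
    linarith
  have h4 : (n : ℝ) * ((1 - 1 / (p : ℝ) ^ J) / (p - 1)) ≤ n * (1 / (p - 1)) :=
    mul_le_mul_of_nonneg_left h3 (Nat.cast_nonneg _)
  have h5 : 2 * (n : ℝ) / (p - 1) = 2 * (n * (1 / (p - 1))) := by ring
  rw [h5]
  linarith

end Pool.Agent.K3h69.AT
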